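import Mathlib
import Pool.Agent.R945.CM.Det

set_option autoImplicit false

namespace Pool.Agent.Results.MP_3ec6ae_nt.Vanishing

open Pool.Agent.R945.LD Pool.Agent.R945.CM

instance : Fact (Nat.Prime 7) := ⟨by norm_num⟩

/-- a prime factor which is a non-residue modulo `7` -/
lemma exists_prime (n : ℕ) (hn : legendreSym 7 n = -1) :
    ∃ p : ℕ, p.Prime ∧ p ∣ n ∧ legendreSym 7 p = -1 := by
  induction n using Nat.strong_induction_on with
  | _ n ih =>
    rcases Nat.lt_or_ge n 2 with h | h
    · exfalso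
      interval_cases n
      · simp at hn
      · simp at hn
    · have hp := Nat.minFac_prime (n := n) (by omega)
      obtain ⟨k, hk⟩ := Nat.minFac_dvd n
      by_cases h1 : legendreSym 7 n.minFac = -1
      · exact ⟨n.minFac, hp, Nat.minFac_dvd n, h1⟩
      · have h2 : legendreSym 7 (n : ℤ) = legendreSym 7 n.minFac * legendreSym 7 k := by
          rw [← legendreSym.mul]
          congr 1
          exact_mod_cast hk
        have h3 : legendreSym 7 k = -1 := by
          rw [hn] at h2
          have h4 : legendreSym 7 (n.minFac : ℤ) = 0 ∨ legendreSym 7 (n.minFac : ℤ) = 1 ∨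
              legendreSym 7 (n.minFac : ℤ) = -1 := quadraticChar_isQuadratic (ZMod 7) _
          rcases h4 with h4 | h4 | h4
          · rw [h4] at h2; simp at h2
          · rw [h4] at h2; simp at h2; omega
          · exact absurd h4 h1
        have hkn : k < n := by
          have hk0 : k ≠ 0 := by rintro rfl; simp at hk; omega
          calc k < 2 * k := by omega
            _ ≤ n.minFac * k := Nat.mul_le_mul_right _ hp.two_le
            _ = n := hk.symm
        obtain ⟨q, hq1, hq2, hq3⟩ := ih k hkn h3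
        exact ⟨q, hq1, hq2.trans ⟨n.minFac, by rw [mul_comm]; exact hk⟩, hq3⟩

lemma q_neg_seven (p : ℕ) [Fact p.Prime] (hp2 : p ≠ 2) (h : legendreSym 7 p = -1) :
    q p (-7) = -1 := by
  have hp : p.Prime := Fact.out
  have e : q p (-7) = q p (-1) * q p 7 := by rw [← q_mul]; congr 1; norm_num
  have e7 : q p 7 = legendreSym p ((7 : ℕ) : ℤ) := by simp [legendreSym, q]
  rcases (show p % 4 = 1 ∨ p % 4 = 3 by
    rcases hp.eq_two_or_odd with h | h
    · exact absurd h hp2
    · omega) with h4 | h4
  · have h5 := legendreSym.quadratic_reciprocity_one_mod_four (p := p) (q := 7) h4 (by norm_num)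
    rw [e, q_neg_one_of_one h4, e7, ← h5, h]; norm_num
  · have h5 := legendreSym.quadratic_reciprocity_three_mod_four (p := p) (q := 7) h4 (by norm_num)
    rw [h] at h5
    rw [e, q_neg_one_of_three h4, e7]
    omega

theorem result (n : ℕ) (hn4 : n % 4 = 1) (hn7 : legendreSym 7 n = -1) :
    (Matrix.of fun j k : Fin (n - 3) => jacobiSym (((j : ℤ) + 2) ^ 2 +
      42 * ((j : ℤ) + 2) * ((k : ℤ) + 2) + (-7) * ((k : ℤ) + 2) ^ 2) n).det = 0 ∧
    (Matrix.of fun j k : Fin (n - 3) => jacobiSym (((j : ℤ) + 2) ^ 2 +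
      21 * ((j : ℤ) + 2) * ((k : ℤ) + 2) + 112 * ((k : ℤ) + 2) ^ 2) n).det = 0 := by
  obtain ⟨p, hp, hpn, hp7⟩ := exists_prime n hn7
  have : Fact p.Prime := ⟨hp⟩
  obtain ⟨m', hm'⟩ := hpn
  have hp2 : p ≠ 2 := by
    rintro rfl
    omega
  have h7 := q_neg_seven p hp2 hp7
  have hS1 : S p ((42 : ℤ) : ZMod p) ((-7 : ℤ) : ZMod p) = 0 := by
    have := S_zero' hp2 h7
    push_cast
    exact this
  have hS2 : S p ((21 : ℤ) : ZMod p) ((112 : ℤ) : ZMod p) = 0 := by
    have := S_zero hp2 h7
    push_cast
    exact this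
  by_cases hm1 : m' = 1
  · subst hm1
    rw [mul_one] at hm'
    subst hm'
    have h2 := two_ne (p := n) hp2
    have hne7 : (7 : ZMod n) ≠ 0 := by
      intro h
      rw [h, neg_zero, q_zero] at h7
      norm_num at h7
    constructor
    · apply det_prime hn4 42 (-7) hS1
      · push_cast; exact h7
      · push_cast
        have : (42 : ZMod n) ^ 2 - 4 * (-7) = 2 ^ 8 * 7 := by norm_num
        rw [this]
        exact mul_ne_zero (pow_ne_zero _ h2) hne7
    · apply det_prime hn4 21 112 hS2
      · push_cast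
        have e : (112 : ZMod n) = (-1) * ((2 * 2) * ((2 * 2) * (-7))) := by norm_num
        rw [e, q_mul (-1), q_mul (2 * 2), q_mul (2 * 2), q_mul 2, q_sq h2, h7, q_neg_one_of_one hn4]
        norm_num
      · push_cast
        have : (21 : ZMod n) ^ 2 - 4 * 112 = - 7 := by norm_num
        rw [this]
        exact neg_ne_zero.mpr hne7
  · have hm3 : 3 ≤ m' := by
      have h0 : m' ≠ 0 := by rintro rfl; omega
      have h2 : m' ≠ 2 := by rintro rfl; omega
      omega
    exact ⟨det_composite hp2 m' hm3 42 (-7) hS1 n hm', det_composite hp2 m' hm3 21 112 hS2 n hm'⟩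

end Pool.Agent.Results.MP_3ec6ae_nt.Vanishing
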